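import Pool.Agent.H4.TA.Targets

/-!
MP_183c3b_co, board tas: the product of `q n` and of the partial sum of `p`.
-/

set_option autoImplicit false

open Finset Pool.Agent.H43.TC Pool.Agent.H4.TA

namespace Pool.Agent.H1.TAS

theorem pf_QGL : T_QGL := by
  intro C p q h
  refine ⟨fun n => ?_, fun K n hK hn => ?_⟩
  · rw [← h.re n, mul_sum]
    refine sum_le_sum fun j _ => ?_
    rw [mul_comm]
    exact mul_le_mul_of_nonneg_left (h.qa (Nat.sub_le n j)) (h.pn j)
  · have hq1 : ∀ j, q j ≤ 1 := fun j => by
      rw [← h.q0]
      exact h.qa (Nat.zero_le j)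
    have hK1 : (1 : ℝ) ≤ (K : ℝ) - 1 := by
      have : (2 : ℝ) ≤ K := by exact_mod_cast hK
      linarith
    have hn0 : (1 : ℝ) ≤ n := by exact_mod_cast hn
    have hC := h.pos
    set c : ℝ := C / (((K : ℝ) - 1) * n) with hc
    have hc0 : 0 ≤ c := by rw [hc]; positivity
    have hcast : (((K - 1) * n : ℕ) : ℝ) = ((K : ℝ) - 1) * n := by
      rw [Nat.cast_mul, Nat.cast_sub (by omega)]
      simp
    have hterm : ∀ j ∈ range (K * n + 1), p j * q (K * n - j) ≤
        q n * p j + (if (K - 1) * n < j then c else 0) := by
      intro j hj
      rw [mem_range] at hj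
      split_ifs with hj2
      · have h1 : p j ≤ c := by
          refine (h.pb j).trans ?_
          rw [hc]
          apply div_le_div_of_nonneg_left (by linarith) (by positivity)
          have : ((((K - 1) * n : ℕ)) : ℝ) < j := by exact_mod_cast hj2
          rw [hcast] at this
          linarith
        have h2 : p j * q (K * n - j) ≤ p j * 1 :=
          mul_le_mul_of_nonneg_left (hq1 _) (h.pn j)
        have h3 : 0 ≤ q n * p j := mul_nonneg (h.qn n) (h.pn j)
        linarith
      · have h1 : n ≤ K * n - j := by
          have : (K - 1) * n + n = K * n := by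
            obtain ⟨k, rfl⟩ : ∃ k, K = k + 1 := ⟨K - 1, by omega⟩
            simp only [Nat.add_sub_cancel]
            ring
          omega
        rw [add_zero, mul_comm (q n)]
        exact mul_le_mul_of_nonneg_left (h.qa h1) (h.pn j)
    have hsum : 1 ≤ q n * ∑ j ∈ range (K * n + 1), p j +
        ∑ j ∈ range (K * n + 1), (if (K - 1) * n < j then c else 0) := by
      rw [mul_sum, ← sum_add_distrib, ← h.re (K * n)]
      exact sum_le_sum hterm
    have hlast : ∑ j ∈ range (K * n + 1), (if (K - 1) * n < j then c else 0) ≤ C / (K - 1) := by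
      rw [← sum_filter, sum_const, nsmul_eq_mul]
      have h1 : ((range (K * n + 1)).filter fun j => (K - 1) * n < j).card ≤ n := by
        have h2 : ((range (K * n + 1)).filter fun j => (K - 1) * n < j) ⊆
            Ioc ((K - 1) * n) (K * n) := by
          intro j hj
          rw [mem_filter, mem_range] at hj
          rw [mem_Ioc]
          omega
        refine (card_le_card h2).trans ?_
        rw [Nat.card_Ioc]
        have : (K - 1) * n + n = K * n := by
          obtain ⟨k, rfl⟩ : ∃ k, K = k + 1 := ⟨K - 1, by omega⟩
          simp only [Nat.add_sub_cancel]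
          ring
        omega
      calc (((range (K * n + 1)).filter fun j => (K - 1) * n < j).card : ℝ) * c ≤ n * c :=
            mul_le_mul_of_nonneg_right (by exact_mod_cast h1) hc0
        _ = C / (K - 1) := by
            rw [hc]
            field_simp
    linarith

end Pool.Agent.H1.TAS
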