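import Pool.Agent.H4.TA.Targets

/-!
MP_183c3b_co, board tas: the number of sequences of signs with sum zero.
-/

set_option autoImplicit false

open Finset Pool.Agent.H43.TC Pool.Agent.H4.TA

namespace Pool.Agent.H1.TAS

theorem cb_bound (m : ℕ) : (Nat.centralBinom m) ^ 2 * (2 * m + 1) ≤ 16 ^ m := by
  induction m with
  | zero => simp
  | succ m ih =>
    have h := Nat.succ_mul_centralBinom_succ m
    have h2 : (m + 1) ^ 2 * (Nat.centralBinom (m + 1) ^ 2 * (2 * (m + 1) + 1)) ≤
        (m + 1) ^ 2 * 16 ^ (m + 1) := by
      calc (m + 1) ^ 2 * (Nat.centralBinom (m + 1) ^ 2 * (2 * (m + 1) + 1))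
          = ((m + 1) * Nat.centralBinom (m + 1)) ^ 2 * (2 * m + 3) := by ring
        _ = (2 * (2 * m + 1) * Nat.centralBinom m) ^ 2 * (2 * m + 3) := by rw [h]
        _ = 4 * (2 * m + 1) * (2 * m + 3) * (Nat.centralBinom m ^ 2 * (2 * m + 1)) := by ring
        _ ≤ 4 * (2 * m + 1) * (2 * m + 3) * 16 ^ m := Nat.mul_le_mul_left _ ih
        _ ≤ (16 * (m + 1) ^ 2) * 16 ^ m := by
            apply Nat.mul_le_mul_right
            nlinarith
        _ = _ := by ring
    exact Nat.le_of_mul_le_mul_left h2 (by positivity)

theorem pf_SGN : T_SGN := by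
  intro n
  have hsum : ∀ ε : Fin n → Bool, ∑ l, (if ε l then (1 : ℤ) else -1) =
      2 * ((univ.filter fun l => ε l = true).card : ℤ) - n := by
    intro ε
    have h1 : ∀ l, (if ε l then (1 : ℤ) else -1) = 2 * (if ε l = true then 1 else 0) - 1 := by
      intro l
      split_ifs <;> simp
    simp_rw [h1]
    rw [sum_sub_distrib, ← mul_sum, sum_boole]
    simp
  rcases Nat.even_or_odd n with ⟨m, hm⟩ | hodd
  · have hc : (univ.filter fun ε : Fin n → Bool =>
        ∑ l, (if ε l then (1 : ℤ) else -1) = 0).card ≤ Nat.centralBinom m := by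
      have h2 : Nat.centralBinom m = (powersetCard m (univ : Finset (Fin n))).card := by
        rw [card_powersetCard, card_univ, Fintype.card_fin, Nat.centralBinom_eq_two_mul_choose,
          hm, two_mul]
      rw [h2]
      refine card_le_card_of_injOn (fun ε => univ.filter fun l => ε l = true) ?_ ?_
      · intro ε hε
        simp only [coe_filter, mem_univ, true_and, Set.mem_setOf_eq] at hε
        rw [hsum ε] at hε
        have hm' : (n : ℤ) = m + m := by exact_mod_cast hm
        simp only [mem_coe, mem_powersetCard, subset_univ,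
          true_and]
        have : ((univ.filter fun l => ε l = true).card : ℤ) = m := by linarith
        exact_mod_cast this
      · intro ε _ ε' _ h
        funext l
        have h3 : l ∈ (univ.filter fun l => ε l = true) ↔ l ∈ (univ.filter fun l => ε' l = true) := by
          simp only at h
          rw [h]
        simp only [mem_filter, mem_univ, true_and] at h3
        exact Bool.eq_iff_iff.2 h3
    have hb := cb_bound m
    have h4 : (univ.filter fun ε : Fin n → Bool =>
        ∑ l, (if ε l then (1 : ℤ) else -1) = 0).card ^ 2 * (n + 1) ≤ 4 ^ n := by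
      calc _ ≤ (Nat.centralBinom m) ^ 2 * (n + 1) :=
            Nat.mul_le_mul_right _ (Nat.pow_le_pow_left hc 2)
        _ = (Nat.centralBinom m) ^ 2 * (2 * m + 1) := by rw [hm]; ring
        _ ≤ 16 ^ m := hb
        _ = 4 ^ n := by
            rw [hm, ← two_mul, pow_mul]
            norm_num
    exact_mod_cast h4
  · have h0 : (univ.filter fun ε : Fin n → Bool =>
        ∑ l, (if ε l then (1 : ℤ) else -1) = 0) = ∅ := by
      rw [filter_eq_empty_iff]
      intro ε _ h
      rw [hsum ε] at h
      obtain ⟨m, hm⟩ := hodd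
      have hm' : (n : ℤ) = 2 * m + 1 := by exact_mod_cast hm
      omega
    rw [h0]
    simp

end Pool.Agent.H1.TAS
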