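import Pool.Agent.H4.TA.Targets2
import Mathlib.Analysis.Real.Pi.Wallis

/-!
MP_183c3b_co, board tas: the product of Wallis.
-/

set_option autoImplicit false

open Finset Filter Topology Pool.Agent.H43.TC Pool.Agent.H4.TA

namespace Pool.Agent.H1.TAS

theorem pf_WAL : T_WAL := by
  have h1 : ∀ m : ℕ, (m : ℝ) * ((m.centralBinom : ℝ) / 4 ^ m) ^ 2 =
      (m / (2 * m + 1)) / Real.Wallis.W m := by
    intro m
    have hW := Real.Wallis.W_eq_factorial_ratio m
    have hc : (m.centralBinom : ℝ) = ((2 * m).factorial : ℝ) / ((m.factorial : ℝ) ^ 2) := by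
      rw [Nat.centralBinom_eq_two_mul_choose, Nat.cast_choose ℝ (by omega : m ≤ 2 * m)]
      have : 2 * m - m = m := by omega
      rw [this, sq]
    have hp : (2 : ℝ) ^ (4 * m) = (4 ^ m) ^ 2 := by
      rw [← pow_mul, show (4 : ℝ) = 2 ^ 2 by norm_num, ← pow_mul]
      congr 1
      ring
    rw [hc, hW, hp]
    have h4 : ((4 : ℝ) ^ m) ≠ 0 := by positivity
    have h5 : (m.factorial : ℝ) ≠ 0 := by positivity
    have h6 : ((2 * m).factorial : ℝ) ≠ 0 := by positivity
    have h7 : (2 * (m : ℝ) + 1) ≠ 0 := by positivity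
    field_simp
  have h2 : Tendsto (fun m : ℕ => (m : ℝ) / (2 * m + 1)) atTop (𝓝 (1 / 2)) := by
    have h3 : Tendsto (fun m : ℕ => (1 : ℝ) / (2 + 1 / m)) atTop (𝓝 (1 / (2 + 0))) := by
      refine Tendsto.div tendsto_const_nhds (tendsto_const_nhds.add ?_) (by norm_num)
      exact tendsto_one_div_atTop_nhds_zero_nat
    rw [add_zero] at h3
    refine h3.congr' ?_
    filter_upwards [eventually_gt_atTop 0] with m hm
    have hm' : (m : ℝ) ≠ 0 := by
      have : (0 : ℝ) < m := by exact_mod_cast hm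
      exact this.ne'
    field_simp
  have h3 := h2.div Real.Wallis.tendsto_W_nhds_pi_div_two (by positivity)
  have h4 : (1 / 2 : ℝ) / (Real.pi / 2) = 1 / Real.pi := by
    have := Real.pi_ne_zero
    field_simp
  rw [h4] at h3
  refine h3.congr fun m => ?_
  rw [h1 m]
  rfl

end Pool.Agent.H1.TAS
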